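import Mathlib

set_option autoImplicit false

/-!
# A recursion with a gain: exponent 2

`fek2` gives the bound `f d k ≤ C (d / k) ^ 2` (no loss in the exponent, no submultiplicativity
needed); `fek` is the form with exponent `2 - η`.
-/

namespace Pool.Agent.TH364.FA

/-- the exponent `2 - t` at the powers of two -/
def PE (f : ℕ → ℕ → ℝ) (t : ℝ) : Prop :=
  ∃ C : ℝ, 0 ≤ C ∧ ∀ m j : ℕ, 1 ≤ m → f m (2 ^ j * m) ≤ C * (2 : ℝ) ^ ((t - 2) * (j : ℝ))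

lemma PE_two (f : ℕ → ℕ → ℝ) (h1 : ∀ d k, f d k ≤ 1) : PE f 2 := by
  refine ⟨1, zero_le_one, fun m j _ => ?_⟩
  have : (2 : ℝ) ^ (((2 : ℝ) - 2) * (j : ℝ)) = 1 := by rw [sub_self, zero_mul, Real.rpow_zero]
  rw [this, one_mul]
  exact h1 _ _

lemma PE_step (f : ℕ → ℕ → ℝ) (h0 : ∀ d k, 0 ≤ f d k) (h1 : ∀ d k, f d k ≤ 1)
    (anti : ∀ d k k', d ≤ k → k ≤ k' → f d k' ≤ f d k)
    (L : ℕ) (hL : 1 ≤ L) (C1 C2 c0 : ℝ) (hC1 : 0 < C1) (hC2 : 0 < C2) (hc0 : 0 < c0)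
    (hrec : ∀ m K n : ℕ, 1 ≤ m → 1 ≤ K → K * m ≤ n →
      f m (L * n) ≤ C1 * (K:ℝ) ^ 2 * ((m:ℝ) / n) ^ 2 +
        C2 * (K:ℝ) ^ (-c0) * (f m (K * m) * f (K * m) n))
    (t t' : ℝ) (ht' : 0 ≤ t') (ht : t ≤ t' + c0 / 2) (h : PE f t) : PE f t' := by
  obtain ⟨C, hC0, hC⟩ := h
  obtain ⟨l, hl⟩ : ∃ l : ℕ, L ≤ 2 ^ l := ⟨L, Nat.lt_two_pow_self.le⟩
  -- the choice of `k`
  obtain ⟨k, hk1, hk⟩ : ∃ k : ℕ, 1 ≤ k ∧ 2 * C2 * C * 4 ^ l * (2 : ℝ) ^ (-(c0 / 2) * (k : ℝ)) ≤ 1 := by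
    obtain ⟨q, hq⟩ : ∃ q : ℝ, q = (2 : ℝ) ^ (-(c0 / 2)) := ⟨_, rfl⟩
    have hq0 : 0 ≤ q := by rw [hq]; positivity
    have hq1 : q < 1 := by
      rw [hq]
      exact Real.rpow_lt_one_of_one_lt_of_neg (by norm_num) (by linarith)
    obtain ⟨D, hD⟩ : ∃ D : ℝ, D = 2 * C2 * C * 4 ^ l := ⟨_, rfl⟩
    have hD0 : 0 ≤ D := by rw [hD]; positivity
    obtain ⟨k, hk⟩ := exists_pow_lt_of_lt_one (show 0 < 1 / (D + 1) by positivity) hq1
    refine ⟨k + 1, by omega, ?_⟩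
    rw [← hD, Real.rpow_mul (by norm_num), ← hq, Real.rpow_natCast]
    have h2 : q ^ (k + 1) ≤ 1 / (D + 1) := by
      calc q ^ (k + 1) ≤ q ^ k := pow_le_pow_of_le_one hq0 hq1.le (by omega)
        _ ≤ _ := hk.le
    calc D * q ^ (k + 1) ≤ D * (1 / (D + 1)) := mul_le_mul_of_nonneg_left h2 hD0
      _ ≤ 1 := by
        rw [mul_one_div, div_le_one (by positivity)]
        linarith
  obtain ⟨C', hC'⟩ : ∃ C' : ℝ, C' = (1 + 2 * C1) * 4 ^ (k + l) := ⟨_, rfl⟩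
  have hC'0 : 0 ≤ C' := by rw [hC']; positivity
  have h4 : ∀ j : ℕ, ((1 : ℝ) / 4 ^ j) ≤ (2 : ℝ) ^ ((t' - 2) * (j : ℝ)) := by
    intro j
    have h5 : ((1 : ℝ) / 4 ^ j) = (2 : ℝ) ^ ((-2 : ℝ) * (j : ℝ)) := by
      rw [Real.rpow_mul (by norm_num), Real.rpow_natCast, Real.rpow_neg (by norm_num), one_div, inv_pow]
      norm_num
    rw [h5]
    apply Real.rpow_le_rpow_of_exponent_le (by norm_num)
    apply mul_le_mul_of_nonneg_right (by linarith) (Nat.cast_nonneg _)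
  refine ⟨C', hC'0, ?_⟩
  intro m j
  induction j using Nat.strong_induction_on generalizing m with
  | _ j ih =>
    intro hm
    have hmr : (0 : ℝ) < m := by exact_mod_cast hm
    rcases Nat.lt_or_ge j (k + l) with hj | hj
    · refine (h1 _ _).trans ?_
      have h5 : (1 : ℝ) / 4 ^ (k + l) ≤ 1 / 4 ^ j :=
        one_div_le_one_div_of_le (by positivity) (pow_le_pow_right₀ (by norm_num) hj.le)
      have h6 := h5.trans (h4 j)
      calc (1 : ℝ) ≤ 1 + 2 * C1 := by linarith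
        _ = C' * (1 / 4 ^ (k + l)) := by rw [hC']; field_simp
        _ ≤ _ := mul_le_mul_of_nonneg_left h6 hC'0
    · obtain ⟨J, hJ⟩ : ∃ J : ℕ, j = J + l := ⟨j - l, by omega⟩
      have hJk : k ≤ J := by omega
      obtain ⟨i, hi⟩ : ∃ i : ℕ, J = i + k := ⟨J - k, by omega⟩
      have e1 : f m (2 ^ j * m) ≤ f m (L * (2 ^ J * m)) := by
        apply anti
        · calc m = 1 * (1 * m) := by ring
            _ ≤ L * (2 ^ J * m) := Nat.mul_le_mul hL (Nat.mul_le_mul_right _ Nat.one_le_two_pow)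
        · rw [hJ, pow_add]
          calc L * (2 ^ J * m) ≤ 2 ^ l * (2 ^ J * m) := Nat.mul_le_mul_right _ hl
            _ = 2 ^ J * 2 ^ l * m := by ring
      have e2 := hrec m (2 ^ k) (2 ^ J * m) hm Nat.one_le_two_pow
        (Nat.mul_le_mul_right _ (Nat.pow_le_pow_right (by norm_num) hJk))
      have e3 := hC m k hm
      have e4 := ih i (by omega) (2 ^ k * m) (Nat.mul_pos (by positivity) hm)
      have e5 : 2 ^ i * (2 ^ k * m) = 2 ^ J * m := by rw [hi, pow_add]; ring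
      rw [e5] at e4
      -- first term
      have g1 : C1 * (((2 ^ k : ℕ) : ℝ)) ^ 2 * ((m:ℝ) / ((2 ^ J * m : ℕ) : ℝ)) ^ 2 =
          C1 * 4 ^ (k + l) * (1 / 4 ^ j) := by
        push_cast
        rw [hJ]
        have h6 : (m : ℝ) / (2 ^ J * m) = 1 / 2 ^ J := by field_simp
        rw [h6, div_pow, one_pow, ← pow_mul, ← pow_mul, mul_comm k 2, mul_comm J 2, pow_mul, pow_mul,
          pow_add, pow_add]
        norm_num
        field_simp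
      have g2 : C1 * 4 ^ (k + l) * (1 / 4 ^ j) ≤ C1 * 4 ^ (k + l) * (2 : ℝ) ^ ((t' - 2) * (j : ℝ)) :=
        mul_le_mul_of_nonneg_left (h4 j) (by positivity)
      -- second term
      have g3 : C2 * (((2 ^ k : ℕ) : ℝ)) ^ (-c0) * (f m (2 ^ k * m) * f (2 ^ k * m) (2 ^ J * m)) ≤
          C2 * (2 : ℝ) ^ (-c0 * (k : ℝ)) * ((C * (2 : ℝ) ^ ((t - 2) * (k : ℝ))) *
            (C' * (2 : ℝ) ^ ((t' - 2) * (i : ℝ)))) := by
        have h6 : (((2 ^ k : ℕ) : ℝ)) ^ (-c0) = (2 : ℝ) ^ (-c0 * (k : ℝ)) := by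
          push_cast
          rw [← Real.rpow_natCast, ← Real.rpow_mul (by norm_num), mul_comm]
        rw [h6]
        apply mul_le_mul_of_nonneg_left _ (by positivity)
        exact mul_le_mul e3 e4 (h0 _ _) (by positivity)
      have g4 : C2 * (2 : ℝ) ^ (-c0 * (k : ℝ)) * ((C * (2 : ℝ) ^ ((t - 2) * (k : ℝ))) *
            (C' * (2 : ℝ) ^ ((t' - 2) * (i : ℝ)))) ≤ C' / 2 * (2 : ℝ) ^ ((t' - 2) * (j : ℝ)) := by
        have h6 : C2 * (2 : ℝ) ^ (-c0 * (k : ℝ)) * ((C * (2 : ℝ) ^ ((t - 2) * (k : ℝ))) *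
            (C' * (2 : ℝ) ^ ((t' - 2) * (i : ℝ)))) =
            C2 * C * C' * (2 : ℝ) ^ (-c0 * (k : ℝ) + (t - 2) * (k : ℝ) + (t' - 2) * (i : ℝ)) := by
          rw [Real.rpow_add (by norm_num), Real.rpow_add (by norm_num)]
          ring
        have h7 : (2 : ℝ) ^ (-c0 * (k : ℝ) + (t - 2) * (k : ℝ) + (t' - 2) * (i : ℝ)) ≤
            (2 : ℝ) ^ (-(c0 / 2) * (k : ℝ) + 2 * (l : ℝ) + (t' - 2) * (j : ℝ)) := by
          apply Real.rpow_le_rpow_of_exponent_le (by norm_num)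
          rw [hJ, hi]
          push_cast
          have hk0 : (0 : ℝ) ≤ k := Nat.cast_nonneg _
          have hl0 : (0 : ℝ) ≤ l := Nat.cast_nonneg _
          have h8 : t * (k : ℝ) ≤ (t' + c0 / 2) * k := mul_le_mul_of_nonneg_right ht hk0
          have h9 : 0 ≤ t' * (l : ℝ) := mul_nonneg ht' hl0
          nlinarith
        rw [h6]
        calc C2 * C * C' * (2 : ℝ) ^ (-c0 * (k : ℝ) + (t - 2) * (k : ℝ) + (t' - 2) * (i : ℝ)) ≤
            C2 * C * C' * (2 : ℝ) ^ (-(c0 / 2) * (k : ℝ) + 2 * (l : ℝ) + (t' - 2) * (j : ℝ)) :=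
              mul_le_mul_of_nonneg_left h7 (by positivity)
          _ = (2 * C2 * C * 4 ^ l * (2 : ℝ) ^ (-(c0 / 2) * (k : ℝ))) *
              (C' / 2 * (2 : ℝ) ^ ((t' - 2) * (j : ℝ))) := by
              rw [Real.rpow_add (by norm_num), Real.rpow_add (by norm_num)]
              have h10 : (2 : ℝ) ^ (2 * (l : ℝ)) = 4 ^ l := by
                rw [Real.rpow_mul (by norm_num), Real.rpow_natCast]
                norm_num
              rw [h10]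
              ring
          _ ≤ 1 * (C' / 2 * (2 : ℝ) ^ ((t' - 2) * (j : ℝ))) :=
              mul_le_mul_of_nonneg_right hk (by positivity)
          _ = _ := one_mul _
      have g5 : C1 * 4 ^ (k + l) * (2 : ℝ) ^ ((t' - 2) * (j : ℝ)) ≤
          C' / 2 * (2 : ℝ) ^ ((t' - 2) * (j : ℝ)) := by
        apply mul_le_mul_of_nonneg_right _ (by positivity)
        rw [hC']
        have h11 : (0 : ℝ) < 4 ^ (k + l) := by positivity
        nlinarith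
      rw [g1] at e2
      linarith

/-- The strong form: exponent exactly 2. -/
theorem fek2 (f : ℕ → ℕ → ℝ) (h0 : ∀ d k, 0 ≤ f d k) (h1 : ∀ d k, f d k ≤ 1)
    (anti : ∀ d k k', d ≤ k → k ≤ k' → f d k' ≤ f d k)
    (L : ℕ) (hL : 1 ≤ L) (C1 C2 c0 : ℝ) (hC1 : 0 < C1) (hC2 : 0 < C2) (hc0 : 0 < c0)
    (hrec : ∀ m K n : ℕ, 1 ≤ m → 1 ≤ K → K * m ≤ n →
      f m (L * n) ≤ C1 * (K:ℝ) ^ 2 * ((m:ℝ) / n) ^ 2 +
        C2 * (K:ℝ) ^ (-c0) * (f m (K * m) * f (K * m) n)) :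
    ∃ C : ℝ, 0 < C ∧ ∀ d k : ℕ, 1 ≤ d → d ≤ k → f d k ≤ C * ((d:ℝ) / k) ^ 2 := by
  have hP : ∀ i : ℕ, PE f (max (2 - (i : ℝ) * (c0 / 2)) 0) := by
    intro i
    induction i with
    | zero =>
      have h2 : max (2 - ((0 : ℕ) : ℝ) * (c0 / 2)) 0 = 2 := by
        rw [Nat.cast_zero, zero_mul, sub_zero]
        exact max_eq_left (by norm_num)
      rw [h2]
      exact PE_two f h1
    | succ i ih =>
      refine PE_step f h0 h1 anti L hL C1 C2 c0 hC1 hC2 hc0 hrec _ _ (le_max_right _ _) ?_ ih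
      push_cast
      apply max_le
      · have h2 := le_max_left (2 - ((i : ℝ) + 1) * (c0 / 2)) 0
        linarith
      · have h2 := le_max_right (2 - ((i : ℝ) + 1) * (c0 / 2)) 0
        linarith
  obtain ⟨i, hi⟩ := exists_nat_ge (4 / c0)
  have hi2 : max (2 - (i : ℝ) * (c0 / 2)) 0 = 0 := by
    apply max_eq_right
    rw [div_le_iff₀ hc0] at hi
    linarith
  have hP0 := hP i
  rw [hi2] at hP0
  obtain ⟨C, hC0, hC⟩ := hP0
  refine ⟨4 * C + 1, by positivity, ?_⟩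
  intro d k hd hdk
  have hd0 : (0 : ℝ) < d := by exact_mod_cast hd
  have hk0 : (0 : ℝ) < k := by exact_mod_cast (by omega : 0 < k)
  obtain ⟨j, hj⟩ : ∃ j : ℕ, j = Nat.log 2 (k / d) := ⟨_, rfl⟩
  have hq : k / d ≠ 0 := by
    have := Nat.div_pos hdk hd
    omega
  have e1 : 2 ^ j * d ≤ k := by
    have h2 : 2 ^ j ≤ k / d := by rw [hj]; exact Nat.pow_log_le_self 2 hq
    exact (Nat.mul_le_mul_right d h2).trans (Nat.div_mul_le_self k d)
  have e2 : k < 2 ^ (j + 1) * d := by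
    have h2 : k / d < 2 ^ (j + 1) := by rw [hj]; exact Nat.lt_pow_succ_log_self (by norm_num) _
    exact (Nat.div_lt_iff_lt_mul hd).1 h2
  have e3 : f d k ≤ f d (2 ^ j * d) := by
    apply anti _ _ _ _ e1
    calc d = 1 * d := by ring
      _ ≤ 2 ^ j * d := Nat.mul_le_mul_right _ Nat.one_le_two_pow
  have e4 := hC d j hd
  have e5 : (2 : ℝ) ^ (((0 : ℝ) - 2) * (j : ℝ)) = 4 * (1 / 2 ^ (j + 1)) ^ 2 := by
    rw [Real.rpow_mul (by norm_num), Real.rpow_natCast, zero_sub, Real.rpow_neg (by norm_num)]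
    have h4 : (2 : ℝ) ^ (2 : ℝ) = 4 := by norm_num
    have h5 : (4 : ℝ) ^ j = (2 ^ j) ^ 2 := by
      rw [← pow_mul, mul_comm, pow_mul]
      norm_num
    rw [h4, inv_pow, h5]
    have h6 : (0 : ℝ) < 2 ^ j := by positivity
    have h7 : (2 : ℝ) ^ (j + 1) = 2 ^ j * 2 := pow_succ 2 j
    rw [h7]
    field_simp
    norm_num
  have e6 : (1 : ℝ) / 2 ^ (j + 1) ≤ (d : ℝ) / k := by
    rw [div_le_div_iff₀ (by positivity) hk0, one_mul, mul_comm]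
    exact_mod_cast e2.le
  have e7 : ((1 : ℝ) / 2 ^ (j + 1)) ^ 2 ≤ ((d : ℝ) / k) ^ 2 := pow_le_pow_left₀ (by positivity) e6 2
  rw [e5] at e4
  have e8 : 0 ≤ ((d : ℝ) / k) ^ 2 := by positivity
  calc f d k ≤ C * (4 * (1 / 2 ^ (j + 1)) ^ 2) := e3.trans e4
    _ ≤ C * (4 * ((d : ℝ) / k) ^ 2) := by
        apply mul_le_mul_of_nonneg_left _ hC0
        linarith
    _ ≤ (4 * C + 1) * ((d : ℝ) / k) ^ 2 := by nlinarith

theorem fek (f : ℕ → ℕ → ℝ) (h0 : ∀ d k, 0 ≤ f d k) (h1 : ∀ d k, f d k ≤ 1)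
    (anti : ∀ d k k', d ≤ k → k ≤ k' → f d k' ≤ f d k)
    (sub : ∀ d s k, 1 ≤ d → d ≤ s → s ≤ k → f d k ≤ f d s * f s k)
    (L : ℕ) (hL : 1 ≤ L) (C1 C2 c0 : ℝ) (hC1 : 0 < C1) (hC2 : 0 < C2) (hc0 : 0 < c0)
    (hrec : ∀ m K n : ℕ, 1 ≤ m → 1 ≤ K → K * m ≤ n →
      f m (L * n) ≤ C1 * (K:ℝ) ^ 2 * ((m:ℝ) / n) ^ 2 +
        C2 * (K:ℝ) ^ (-c0) * (f m (K * m) * f (K * m) n))
    (η : ℝ) (hη : 0 < η) :
    ∃ C : ℝ, 0 < C ∧ ∀ d k : ℕ, 1 ≤ d → d ≤ k → f d k ≤ C * ((d:ℝ) / k) ^ (2 - η) := by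
  have _ := sub
  obtain ⟨C, hC0, hC⟩ := fek2 f h0 h1 anti L hL C1 C2 c0 hC1 hC2 hc0 hrec
  refine ⟨C, hC0, fun d k hd hdk => (hC d k hd hdk).trans ?_⟩
  apply mul_le_mul_of_nonneg_left _ hC0.le
  have hd0 : (0 : ℝ) < d := by exact_mod_cast hd
  have hk0 : (0 : ℝ) < k := by exact_mod_cast (by omega : 0 < k)
  rw [← Real.rpow_natCast]
  apply Real.rpow_le_rpow_of_exponent_ge (by positivity)
  · rw [div_le_one hk0]
    exact_mod_cast hdk
  · push_cast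
    linarith

end Pool.Agent.TH364.FA
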