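import Mathlib
import Pool.Agent.TH990.FA.Defs2
import Pool.Agent.TH987.FA.Rei

set_option autoImplicit false

/-!
# The number of crossing clusters has a geometric tail
-/

namespace Pool.Agent.TH364.FA

open H974 H12S Pool.Agent.TH990.FA Finset

/-- an open path uses only edges of its own cluster -/
lemma mck_reach {V : Set Vtx} {F G : Set Edg} {a b : Vtx} (h : Reach (F ∩ EV V) a b)
    (hG : ∀ e ∈ F, e ∈ EV V → Reach (F ∩ EV V) a (src e) → e ∈ G) : Reach (G ∩ EV V) a b := by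
  induction h with
  | refl => exact Relation.ReflTransGen.refl
  | tail h1 h2 ih =>
    refine Relation.ReflTransGen.tail ih ?_
    have h3 := Relation.ReflTransGen.tail h1 h2
    obtain ⟨e, he, h⟩ := h2
    refine ⟨e, ⟨hG e he.1 he.2 ?_, he.2⟩, h⟩
    rcases h with h | h
    · rw [h.1]
      exact h1
    · rw [h.1]
      exact h3

lemma mck_step (c : Vtx) (d k j : ℕ) (S : Finset Edg) (F : Finset Edg) (hF : F ⊆ S)
    (h : MC c d k (j + 1) ↑F) : ∃ K : Finset Edg,
      (∀ G : Finset Edg, G ⊆ S → G ∩ K = F ∩ K → MC c d k j ↑G) ∧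
      (∀ G : Finset Edg, G ⊆ S → G \ K = F \ K → F1 c d k ↑G) := by
  classical
  obtain ⟨w, hw1, hw2⟩ := h
  obtain ⟨z, hz⟩ : ∃ z : Vtx, z = w (Fin.last j) := ⟨_, rfl⟩
  obtain ⟨L, hL⟩ : ∃ L : Finset Edg, L = F.filter (fun e => e ∈ EV (An c d k) ∧
    src e ∈ Cl (An c d k) ↑F z) := ⟨_, rfl⟩
  have hLF : L ⊆ F := by rw [hL]; exact filter_subset _ _
  have memL : ∀ e, e ∈ L ↔ e ∈ F ∧ e ∈ EV (An c d k) ∧ src e ∈ Cl (An c d k) ↑F z := by
    intro e
    rw [hL, mem_filter]
  refine ⟨S \ L, ?_, ?_⟩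
  · intro G hGS hG
    have hGF : G ⊆ F := by
      intro e he
      by_cases heL : e ∈ L
      · exact hLF heL
      · have h1 : e ∈ G ∩ (S \ L) := mem_inter.2 ⟨he, mem_sdiff.2 ⟨hGS he, heL⟩⟩
        rw [hG] at h1
        exact (mem_inter.1 h1).1
    refine ⟨fun i => w i.castSucc, ?_, ?_⟩
    · intro i
      obtain ⟨h1, u, hu, h2⟩ := hw1 i.castSucc
      refine ⟨h1, u, hu, ?_⟩
      unfold Cl at h2 ⊢
      refine mck_reach h2 ?_
      intro e heF heV heR
      rw [mem_coe] at heF ⊢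
      have heL : e ∉ L := by
        intro heL
        rw [memL] at heL
        have h3 : Reach (↑F ∩ EV (An c d k)) z (src e) := heL.2.2
        have h4 : Reach (↑F ∩ EV (An c d k)) z (w i.castSucc) := (h3.trans heR.symm).trans h2
        refine hw2 (Fin.last j) i.castSucc (Fin.castSucc_lt_last i).ne' ?_
        rw [← hz]
        exact h4
      have h3 : e ∈ F ∩ (S \ L) := mem_inter.2 ⟨heF, mem_sdiff.2 ⟨hF heF, heL⟩⟩
      rw [← hG] at h3
      exact (mem_inter.1 h3).1
    · intro i i' hii h1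
      refine hw2 i.castSucc i'.castSucc (fun h => hii (Fin.castSucc_injective j h)) ?_
      unfold Cl at h1 ⊢
      exact Reach.mono (Set.inter_subset_inter_left _ (by exact_mod_cast hGF)) h1
  · intro G hGS hG
    obtain ⟨h1, u, hu, h2⟩ := hw1 (Fin.last j)
    rw [← hz] at h1 h2
    refine ⟨u, hu, z, h1, ?_⟩
    unfold Cl at h2 ⊢
    refine mck_reach h2 ?_
    intro e heF heV heR
    rw [mem_coe] at heF ⊢
    have heL : e ∈ L := by
      rw [memL]
      exact ⟨heF, heV, h2.symm.trans heR⟩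
    have h3 : e ∈ F \ (S \ L) := by
      rw [mem_sdiff, mem_sdiff]
      exact ⟨heF, fun h => h.2 heL⟩
    rw [← hG] at h3
    exact (mem_sdiff.1 h3).1

theorem mck (c : Vtx) (d k j : ℕ) (S : Finset Edg) (hS : ∀ e ∈ EV (An c d k), e ∈ S) :
    Pr (fun _ => (1/2:ℝ)) S (fun F => MC c d k j ↑F) ≤
      (Pr (fun _ => (1/2:ℝ)) S (fun F => F1 c d k ↑F)) ^ j := by
  have _ := hS
  have hok : Ok (fun _ : Edg => (1/2:ℝ)) := fun e => ⟨by norm_num, by norm_num⟩
  induction j with
  | zero =>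
    rw [pow_zero]
    exact Ex_le_of_le hok fun F _ => ind_le_one _
  | succ j ih =>
    have h1 := Pool.Agent.TH987.FA.rei S (fun F => MC c d k j ↑F) (fun F => F1 c d k ↑F)
      (fun F => MC c d k (j + 1) ↑F) (fun F hF hC => mck_step c d k j S F hF hC)
    refine h1.trans ?_
    rw [pow_succ]
    exact mul_le_mul_of_nonneg_right ih (Ex_nonneg hok fun F _ => ind_nonneg _)

end Pool.Agent.TH364.FA
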